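import Pool.Agent.V5helper49.LR.Stm3
import Pool.Agent.V5helper31.LR.PAT

/-!
# Project LR, job PAT2: good intervals have the exact pattern in the model (adaptation of PAT of helper31)
-/

set_option autoImplicit false

namespace Pool.Agent.V5helper9.LR

open Finset Filter Topology
open Pool.Agent.V5helper49.LR
open Pool.Agent.V5helper42.RS (W W_mono model)
open Pool.Agent.V5helper31.LR (W_gt_log)

theorem t_PAT2 (hM : Pool.Agent.V5helper49.LR.S_MAS2) : Pool.Agent.V5helper49.LR.S_PAT2 := by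
  classical
  intro ε hε hε1
  obtain ⟨X₁, hX₁⟩ := hM ε hε hε1
  obtain ⟨X₂, hX₂⟩ := eventually_atTop.1 W_gt_log
  have hL : Tendsto (fun X : ℕ => Real.log X) atTop atTop :=
    Real.tendsto_log_atTop.comp tendsto_natCast_atTop_atTop
  have h3 : ∀ᶠ X : ℕ in atTop, Real.log X ^ (2 - ε) ≤ X ∧ 1 ≤ Real.log X := by
    have h1 := (isLittleO_log_rpow_rpow_atTop (2 - ε) (show (0 : ℝ) < 1 by norm_num)).bound
      (show (0 : ℝ) < 1 by norm_num)
    have h2 := tendsto_natCast_atTop_atTop.eventually h1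
    filter_upwards [h2, hL.eventually_ge_atTop 1] with X hX hX1
    rw [Real.rpow_one, one_mul] at hX
    refine ⟨((le_abs_self _).trans hX).trans (le_of_eq ?_), hX1⟩
    exact abs_of_nonneg (Nat.cast_nonneg X)
  obtain ⟨X₃, hX₃⟩ := eventually_atTop.1 h3
  refine ⟨X₁ + X₂ + X₃ + 1, fun X hX H T hH hT ρ hρ n hn hn2 hsmall hok => ?_⟩
  obtain ⟨b1, b2⟩ := hX₃ X (by omega)
  have hW3 : W (Y2 ε X) ≤ Real.log X := by
    obtain ⟨_, _, h, _, _⟩ := hX₁ X (by omega) 0 1 (by
      have : 0 ≤ Real.log X ^ (2 - ε) := Real.rpow_nonneg (by linarith) _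
      simpa using this) (by omega) (by omega)
    exact h
  have hHX : H ≤ X := by
    have h : (H : ℝ) ≤ X := hH.trans b1
    exact_mod_cast h
  have hn0 : (0 : ℝ) < X := by exact_mod_cast (by omega : 0 < X)
  intro j hj
  constructor
  · intro hmod
    by_contra hjT
    have hjV : j ∈ range (H + 1) \ T := mem_sdiff.2 ⟨mem_range.2 (by omega), hjT⟩
    obtain ⟨p, hp, hpB, hpe⟩ := hok.2 j hjV
    rw [B2, mem_filter, mem_Ioc] at hpB
    have hpp : p.Prime := hpB.2
    have h1 : W p ≤ Real.log ((n + j : ℕ) : ℝ) := by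
      refine (W_mono hpB.1.2).trans (hW3.trans ?_)
      exact Real.log_le_log hn0 (by exact_mod_cast (by omega : X ≤ n + j))
    refine hmod p hpp h1 ?_
    show (n + j) % p = ρ p % p
    rw [hpe, Nat.mod_eq_of_lt (hρ p hpp)]
  · intro hjT p hpp hWp hmod
    have hmod' : (n + j) % p = ρ p := by
      have h : (n + j) % p = ρ p % p := hmod
      rwa [Nat.mod_eq_of_lt (hρ p hpp)] at h
    by_cases hpz : p ≤ yy ε X
    · exact hsmall p hpp hpz j hjT hmod'
    · have hp3 : p ≤ 3 * X := by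
        by_contra hlt
        have h1 : W (3 * X) ≤ W p := W_mono (by omega)
        have h2 := hX₂ (3 * X) (by omega)
        have h4 : Real.log ((n + j : ℕ) : ℝ) ≤ Real.log ((3 * X : ℕ) : ℝ) := by
          refine Real.log_le_log (by exact_mod_cast (by omega : 0 < n + j)) ?_
          exact_mod_cast (by omega : n + j ≤ 3 * X)
        linarith
      have hpQ : p ∈ Q2 ε X := by
        rw [Q2, mem_filter, mem_Ioc]
        exact ⟨⟨by omega, hp3⟩, hpp⟩
      exact hok.1 p (mem_toList.2 hpQ) j hjT hmod'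

end Pool.Agent.V5helper9.LR
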